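import Mathlib

set_option autoImplicit false

namespace Pool.Agent.Results.MP_3bc6ef_co.NotMonotoneFour

open Finset

/-- The `h`-fold signed sumset `h_± A`: all sums `∑ c a • a` over `a ∈ A` with integer coefficients
whose absolute values add up to exactly `h`. -/
def signedSumset {n : ℕ} (h : ℕ) (A : Finset (ZMod n)) : Set (ZMod n) :=
  {x | ∃ c : ZMod n → ℤ, ∑ a ∈ A, |c a| = (h : ℤ) ∧ x = ∑ a ∈ A, c a • a}

/-- `[1,t]_± A`, the union of the `h`-fold signed sumsets for `1 ≤ h ≤ t`. -/
def signedInterval {n : ℕ} (t : ℕ) (A : Finset (ZMod n)) : Set (ZMod n) :=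
  {x | ∃ h : ℕ, 1 ≤ h ∧ h ≤ t ∧ x ∈ signedSumset h A}

/-- `A` is `t`-independent if `0 ∉ [1,t]_± A`. -/
def IsTIndependent {n : ℕ} (t : ℕ) (A : Finset (ZMod n)) : Prop :=
  (0 : ZMod n) ∉ signedInterval t A

/-- `τ_±(Z_n,[1,t])`: the maximum size of a `t`-independent subset of `Z_n`. -/
noncomputable def tau (n t : ℕ) : ℕ :=
  sSup {k : ℕ | ∃ A : Finset (ZMod n), A.card = k ∧ IsTIndependent t A}

/-! ### Restatement through families of elements -/

/-- A family `a : Fin m → ZMod n` with no nontrivial vanishing combination of weight at most `4`. -/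
def FamIndep {n m : ℕ} (a : Fin m → ZMod n) : Prop :=
  ∀ c : Fin m → ℤ, 1 ≤ ∑ i, |c i| → ∑ i, |c i| ≤ 4 → ∑ i, c i • a i ≠ 0

theorem famIndep_of_set {n m : ℕ} {A : Finset (ZMod n)} (hA : IsTIndependent 4 A)
    (a : Fin m → ZMod n) (hinj : Function.Injective a) (hmem : ∀ i, a i ∈ A) : FamIndep a := by
  classical
  intro c h1 h4 hz
  apply hA
  let c' : ZMod n → ℤ := fun x => ∑ i, if a i = x then c i else 0
  have hc' : ∀ i, c' (a i) = c i := by
    intro i
    simp only [c']
    rw [Finset.sum_eq_single i]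
    · simp
    · intro j _ hj
      rw [if_neg]
      intro h
      exact hj (hinj h)
    · simp
  have hc0 : ∀ x, x ∉ Finset.univ.image a → c' x = 0 := by
    intro x hx
    simp only [c']
    apply Finset.sum_eq_zero
    intro i _
    rw [if_neg]
    intro h
    apply hx
    rw [← h]
    exact Finset.mem_image_of_mem _ (Finset.mem_univ _)
  have hsub : Finset.univ.image a ⊆ A := by
    intro x hx
    simp only [Finset.mem_image, Finset.mem_univ, true_and] at hx
    obtain ⟨i, rfl⟩ := hx
    exact hmem i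
  have habs : ∑ x ∈ A, |c' x| = ∑ i, |c i| := by
    rw [← Finset.sum_subset hsub (fun x _ hx => by rw [hc0 x hx]; simp)]
    rw [Finset.sum_image (fun i _ j _ h => hinj h)]
    simp [hc']
  have hsum : ∑ x ∈ A, c' x • x = ∑ i, c i • a i := by
    rw [← Finset.sum_subset hsub (fun x _ hx => by rw [hc0 x hx]; simp)]
    rw [Finset.sum_image (fun i _ j _ h => hinj h)]
    simp [hc']
  refine ⟨(∑ i, |c i|).toNat, ?_, ?_, c', ?_, ?_⟩
  · omega
  · omega
  · rw [habs]; omega
  · rw [hsum, hz]

/-! ### The exhaustive search modulo 73 -/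

/-- Coefficient vectors of length two, three and four. -/
def C2 : List (ℤ × ℤ) := [(1,1),(1,-1),(1,2),(1,-2),(2,1),(2,-1),(1,3),(1,-3),(3,1),(3,-1)]
def C3 : List (ℤ × ℤ × ℤ) := [(1,1,1),(1,1,-1),(1,-1,1),(1,-1,-1),
  (2,1,1),(2,1,-1),(2,-1,1),(2,-1,-1),(1,2,1),(1,2,-1),(1,-2,1),(1,-2,-1),
  (1,1,2),(1,1,-2),(1,-1,2),(1,-1,-2)]
def C4 : List (ℤ × ℤ × ℤ × ℤ) := [(1,1,1,1),(1,1,1,-1),(1,1,-1,1),(1,1,-1,-1),
  (1,-1,1,1),(1,-1,1,-1),(1,-1,-1,1),(1,-1,-1,-1)]

def g2 (x y : ℤ) : Bool := C2.all fun c => (c.1 * x + c.2 * y) % 73 != 0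
def g3 (x y z : ℤ) : Bool := C3.all fun c => (c.1 * x + c.2.1 * y + c.2.2 * z) % 73 != 0
def g4 (x y z w : ℤ) : Bool :=
  C4.all fun c => (c.1 * x + c.2.1 * y + c.2.2.1 * z + c.2.2.2 * w) % 73 != 0

def t1 (x : ℤ) : Bool := g2 1 x
def t2 (x y : ℤ) : Bool := decide (x < y) && (g2 1 y && (g2 x y && g3 1 x y))
def t3 (x y z : ℤ) : Bool := decide (y < z) && (g2 1 z && (g2 x z && (g2 y z && (g3 1 x z &&
  (g3 1 y z && (g3 x y z && g4 1 x y z))))))
def t4 (x y z w : ℤ) : Bool := decide (z < w) && (g2 1 w && (g2 x w && (g2 y w && (g2 z w &&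
  (g3 1 x w && (g3 1 y w && (g3 1 z w && (g3 x y w && (g3 x z w && (g3 y z w &&
  (g4 1 x y w && (g4 1 x z w && (g4 1 y z w && g4 x y z w)))))))))))))

def rng : List ℤ := [2,3,4,5,6,7,8,9,10,11,12,13,14,15,16,17,18,19,20,21,22,23,24,25,26,27,28,29,
  30,31,32,33,34,35,36]

def search : Bool :=
  rng.all fun x => !(t1 x) || (rng.all fun y => !(t2 x y) || (rng.all fun z => !(t3 x y z) ||
    (rng.all fun w => !(t4 x y z w))))

theorem search_ok : search = true := by decide +kernel

theorem mem_rng {x : ℤ} (h1 : 2 ≤ x) (h2 : x ≤ 36) : x ∈ rng := by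
  interval_cases x <;> decide

theorem g2_of {x y : ℤ} (h : ∀ c1 c2 : ℤ, 1 ≤ |c1| + |c2| → |c1| + |c2| ≤ 4 →
    (c1 * x + c2 * y) % 73 ≠ 0) : g2 x y = true := by
  have hC : ∀ c ∈ C2, 1 ≤ |c.1| + |c.2| ∧ |c.1| + |c.2| ≤ 4 := by decide
  unfold g2
  rw [List.all_eq_true]
  intro c hc
  have := h c.1 c.2 (hC c hc).1 (hC c hc).2
  simpa using this

theorem g3_of {x y z : ℤ} (h : ∀ c1 c2 c3 : ℤ, 1 ≤ |c1| + |c2| + |c3| →
    |c1| + |c2| + |c3| ≤ 4 → (c1 * x + c2 * y + c3 * z) % 73 ≠ 0) : g3 x y z = true := by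
  have hC : ∀ c ∈ C3, 1 ≤ |c.1| + |c.2.1| + |c.2.2| ∧ |c.1| + |c.2.1| + |c.2.2| ≤ 4 := by decide
  unfold g3
  rw [List.all_eq_true]
  intro c hc
  have := h c.1 c.2.1 c.2.2 (hC c hc).1 (hC c hc).2
  simpa using this

theorem g4_of {x y z w : ℤ} (h : ∀ c1 c2 c3 c4 : ℤ, 1 ≤ |c1| + |c2| + |c3| + |c4| →
    |c1| + |c2| + |c3| + |c4| ≤ 4 → (c1 * x + c2 * y + c3 * z + c4 * w) % 73 ≠ 0) :
    g4 x y z w = true := by
  have hC : ∀ c ∈ C4, 1 ≤ |c.1| + |c.2.1| + |c.2.2.1| + |c.2.2.2| ∧
      |c.1| + |c.2.1| + |c.2.2.1| + |c.2.2.2| ≤ 4 := by decide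
  unfold g4
  rw [List.all_eq_true]
  intro c hc
  have := h c.1 c.2.1 c.2.2.1 c.2.2.2 (hC c hc).1 (hC c hc).2
  simpa using this

/-- No five integers `1 < x < y < z < w ≤ 36` form a `4`-independent family modulo `73`. -/
theorem no_five {x y z w : ℤ} (h1 : 1 < x) (h2 : x < y) (h3 : y < z) (h4 : z < w) (h5 : w ≤ 36)
    (H : ∀ c0 c1 c2 c3 c4 : ℤ, 1 ≤ |c0| + |c1| + |c2| + |c3| + |c4| →
      |c0| + |c1| + |c2| + |c3| + |c4| ≤ 4 →
      (c0 * 1 + c1 * x + c2 * y + c3 * z + c4 * w) % 73 ≠ 0) : False := by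
  have hs := search_ok
  unfold search at hs
  rw [List.all_eq_true] at hs
  have a01 : g2 1 x = true := g2_of fun a b p q => by
    simpa using H a b 0 0 0 (by simpa using p) (by simpa using q)
  have a02 : g2 1 y = true := g2_of fun a b p q => by
    simpa using H a 0 b 0 0 (by simpa using p) (by simpa using q)
  have a03 : g2 1 z = true := g2_of fun a b p q => by
    simpa using H a 0 0 b 0 (by simpa using p) (by simpa using q)
  have a04 : g2 1 w = true := g2_of fun a b p q => by
    simpa using H a 0 0 0 b (by simpa using p) (by simpa using q)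
  have a12 : g2 x y = true := g2_of fun a b p q => by
    simpa using H 0 a b 0 0 (by simpa using p) (by simpa using q)
  have a13 : g2 x z = true := g2_of fun a b p q => by
    simpa using H 0 a 0 b 0 (by simpa using p) (by simpa using q)
  have a14 : g2 x w = true := g2_of fun a b p q => by
    simpa using H 0 a 0 0 b (by simpa using p) (by simpa using q)
  have a23 : g2 y z = true := g2_of fun a b p q => by
    simpa using H 0 0 a b 0 (by simpa using p) (by simpa using q)
  have a24 : g2 y w = true := g2_of fun a b p q => by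
    simpa using H 0 0 a 0 b (by simpa using p) (by simpa using q)
  have a34 : g2 z w = true := g2_of fun a b p q => by
    simpa using H 0 0 0 a b (by simpa using p) (by simpa using q)
  have b012 : g3 1 x y = true := g3_of fun a b c p q => by
    simpa using H a b c 0 0 (by simpa using p) (by simpa using q)
  have b013 : g3 1 x z = true := g3_of fun a b c p q => by
    simpa using H a b 0 c 0 (by simpa using p) (by simpa using q)
  have b014 : g3 1 x w = true := g3_of fun a b c p q => by
    simpa using H a b 0 0 c (by simpa using p) (by simpa using q)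
  have b023 : g3 1 y z = true := g3_of fun a b c p q => by
    simpa using H a 0 b c 0 (by simpa using p) (by simpa using q)
  have b024 : g3 1 y w = true := g3_of fun a b c p q => by
    simpa using H a 0 b 0 c (by simpa using p) (by simpa using q)
  have b034 : g3 1 z w = true := g3_of fun a b c p q => by
    simpa using H a 0 0 b c (by simpa using p) (by simpa using q)
  have b123 : g3 x y z = true := g3_of fun a b c p q => by
    simpa using H 0 a b c 0 (by simpa using p) (by simpa using q)
  have b124 : g3 x y w = true := g3_of fun a b c p q => by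
    simpa using H 0 a b 0 c (by simpa using p) (by simpa using q)
  have b134 : g3 x z w = true := g3_of fun a b c p q => by
    simpa using H 0 a 0 b c (by simpa using p) (by simpa using q)
  have b234 : g3 y z w = true := g3_of fun a b c p q => by
    simpa using H 0 0 a b c (by simpa using p) (by simpa using q)
  have c0123 : g4 1 x y z = true := g4_of fun a b c d p q => by
    simpa using H a b c d 0 (by simpa using p) (by simpa using q)
  have c0124 : g4 1 x y w = true := g4_of fun a b c d p q => by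
    simpa using H a b c 0 d (by simpa using p) (by simpa using q)
  have c0134 : g4 1 x z w = true := g4_of fun a b c d p q => by
    simpa using H a b 0 c d (by simpa using p) (by simpa using q)
  have c0234 : g4 1 y z w = true := g4_of fun a b c d p q => by
    simpa using H a 0 b c d (by simpa using p) (by simpa using q)
  have c1234 : g4 x y z w = true := g4_of fun a b c d p q => by
    simpa using H 0 a b c d (by simpa using p) (by simpa using q)
  have s1 := hs x (mem_rng (by omega) (by omega))
  simp only [t1, a01, Bool.not_true, Bool.false_or] at s1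
  rw [List.all_eq_true] at s1
  have s2 := s1 y (mem_rng (by omega) (by omega))
  simp only [t2, h2, a02, a12, b012, decide_true, Bool.and_self, Bool.not_true,
    Bool.false_or] at s2
  rw [List.all_eq_true] at s2
  have s3 := s2 z (mem_rng (by omega) (by omega))
  simp only [t3, h3, a03, a13, a23, b013, b023, b123, c0123, decide_true, Bool.and_self,
    Bool.not_true, Bool.false_or] at s3
  rw [List.all_eq_true] at s3
  have s4 := s3 w (mem_rng (by omega) (by omega))
  simp [t4, h4, a04, a14, a24, a34, b014, b024, b034, b124, b134, b234, c0124, c0134, c0234,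
    c1234] at s4

instance : Fact (Nat.Prime 73) := ⟨by norm_num⟩

theorem famIndep_scale {m : ℕ} {a : Fin m → ZMod 73} (ha : FamIndep a) {u : ZMod 73} (hu : u ≠ 0) :
    FamIndep (fun i => u * a i) := by
  intro c h1 h4 hz
  apply ha c h1 h4
  have : ∑ i, c i • (u * a i) = u * ∑ i, c i • a i := by
    rw [Finset.mul_sum]
    apply Finset.sum_congr rfl
    intro i _
    rw [mul_smul_comm]
  rw [this] at hz
  exact (mul_eq_zero.mp hz).resolve_left hu

theorem famIndep_sign {m : ℕ} {a b : Fin m → ZMod 73} (ha : FamIndep a) (e : Fin m → ℤ)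
    (he : ∀ i, |e i| = 1) (hb : ∀ i, b i = e i • a i) : FamIndep b := by
  intro c h1 h4 hz
  have habs : ∀ i, |c i * e i| = |c i| := by
    intro i
    rw [abs_mul, he i, mul_one]
  apply ha (fun i => c i * e i)
  · simpa only [habs] using h1
  · simpa only [habs] using h4
  · rw [← hz]
    apply Finset.sum_congr rfl
    intro i _
    rw [hb i, mul_smul]

theorem famIndep_perm {m : ℕ} {a : Fin m → ZMod 73} (ha : FamIndep a) (s : Equiv.Perm (Fin m)) :
    FamIndep (fun i => a (s i)) := by
  intro c h1 h4 hz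
  apply ha (fun i => c (s.symm i))
  · rw [Equiv.sum_comp s.symm (fun i => |c i|)]; exact h1
  · rw [Equiv.sum_comp s.symm (fun i => |c i|)]; exact h4
  · rw [← hz, ← Equiv.sum_comp s (fun i => c (s.symm i) • a i)]
    simp

theorem no_family (a : Fin 5 → ZMod 73) (ha : FamIndep a) : False := by
  have hne : ∀ {b : Fin 5 → ZMod 73}, FamIndep b → ∀ i, b i ≠ 0 := by
    intro b hb i hz
    apply hb (fun j => if j = i then 1 else 0)
    · simp [apply_ite abs]
    · simp [apply_ite abs]
    · simp [hz]
  -- scale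
  let b : Fin 5 → ZMod 73 := fun i => (a 0)⁻¹ * a i
  have hb : FamIndep b := famIndep_scale ha (inv_ne_zero (hne ha 0))
  have hb0 : b 0 = 1 := inv_mul_cancel₀ (hne ha 0)
  -- normalize signs
  let m : Fin 5 → ℕ := fun i => (b i).valMinAbs.natAbs
  let e : Fin 5 → ℤ := fun i => if 0 ≤ (b i).valMinAbs then 1 else -1
  have hm : FamIndep (fun i => ((m i : ℕ) : ZMod 73)) := by
    apply famIndep_sign hb e
    · intro i
      simp only [e]
      split_ifs <;> simp
    · intro i
      simp only [e, m]
      have h0 : (((b i).valMinAbs : ℤ) : ZMod 73) = b i := ZMod.coe_valMinAbs (b i)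
      split_ifs with h
      · rw [one_smul]
        conv_rhs => rw [← h0]
        rw [← Int.cast_natCast, Int.natAbs_of_nonneg h]
      · rw [neg_smul, one_smul]
        conv_rhs => rw [← h0]
        rw [← Int.cast_natCast, Int.ofNat_natAbs_of_nonpos (by omega)]
        push_cast
        rfl
  have hm36 : ∀ i, m i ≤ 36 := by
    intro i
    have := ZMod.natAbs_valMinAbs_le (b i)
    exact this
  have hm1 : ∀ i, 1 ≤ m i := by
    intro i
    have := hne hm i
    by_contra hc
    apply this
    have : m i = 0 := by omega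
    simp [this]
  have hm0 : m 0 = 1 := by
    simp only [m, hb0]
    decide
  -- sort
  let s := Tuple.sort m
  have hmono : Monotone (m ∘ s) := Tuple.monotone_sort m
  have hx : FamIndep (fun i => ((m (s i) : ℕ) : ZMod 73)) := famIndep_perm hm s
  have hdist : ∀ i j, i ≠ j → m (s i) ≠ m (s j) := by
    intro i j hij h
    apply hx (fun k => if k = i then 1 else if k = j then -1 else 0)
    · have : ∀ k, |(if k = i then (1 : ℤ) else if k = j then -1 else 0)| =
          (if k = i then 1 else 0) + (if k = j then 1 else 0) := by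
        intro k
        by_cases h1 : k = i
        · have : k ≠ j := fun h2 => hij (h1.symm.trans h2)
          simp [h1, hij]
        · by_cases h2 : k = j
          · simp [h2, Ne.symm hij]
          · simp [h1, h2]
      simp only [this, Finset.sum_add_distrib]
      simp
    · have : ∀ k, |(if k = i then (1 : ℤ) else if k = j then -1 else 0)| =
          (if k = i then 1 else 0) + (if k = j then 1 else 0) := by
        intro k
        by_cases h1 : k = i
        · have : k ≠ j := fun h2 => hij (h1.symm.trans h2)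
          simp [h1, hij]
        · by_cases h2 : k = j
          · simp [h2, Ne.symm hij]
          · simp [h1, h2]
      simp only [this, Finset.sum_add_distrib]
      simp
    · have : ∀ k, (if k = i then (1 : ℤ) else if k = j then -1 else 0) • ((m (s k) : ℕ) : ZMod 73) =
          (if k = i then ((m (s k) : ℕ) : ZMod 73) else 0) +
            (if k = j then -((m (s k) : ℕ) : ZMod 73) else 0) := by
        intro k
        by_cases h1 : k = i
        · have : k ≠ j := fun h2 => hij (h1.symm.trans h2)
          simp [h1, hij]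
        · by_cases h2 : k = j
          · simp [h2, Ne.symm hij]
          · simp [h1, h2]
      simp only [this, Finset.sum_add_distrib]
      simp [h]
  have hlt : ∀ i j : Fin 5, i < j → m (s i) < m (s j) := by
    intro i j hij
    exact lt_of_le_of_ne (hmono hij.le) (hdist i j hij.ne)
  have hx0 : m (s 0) = 1 := by
    have h1 : m (s 0) ≤ m (s (s.symm 0)) := hmono (Fin.zero_le _)
    rw [Equiv.apply_symm_apply, hm0] at h1
    exact le_antisymm h1 (hm1 _)
  have l01 := hlt 0 1 (by decide)
  have l12 := hlt 1 2 (by decide)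
  have l23 := hlt 2 3 (by decide)
  have l34 := hlt 3 4 (by decide)
  have l4 := hm36 (s 4)
  refine no_five (x := m (s 1)) (y := m (s 2)) (z := m (s 3)) (w := m (s 4))
    (by omega) (by omega) (by omega) (by omega) (by omega) ?_
  intro c0 c1 c2 c3 c4 p q hz
  apply hx ![c0, c1, c2, c3, c4]
  · simp only [Fin.sum_univ_five]
    exact p
  · simp only [Fin.sum_univ_five]
    exact q
  · have hd : (73 : ℤ) ∣ c0 * 1 + c1 * m (s 1) + c2 * m (s 2) + c3 * m (s 3) + c4 * m (s 4) :=
      Int.dvd_of_emod_eq_zero hz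
    have h2 := (ZMod.intCast_zmod_eq_zero_iff_dvd _ 73).mpr (by exact_mod_cast hd)
    rw [← h2]
    simp only [Fin.sum_univ_five]
    simp [hx0]

/-- `Z_73` has no `4`-independent set with five elements. -/
theorem tau_73 : tau 73 4 ≤ 4 := by
  apply csSup_le
  · exact ⟨0, ∅, rfl, by
      rintro ⟨h, h1, _, c, hc, _⟩
      simp at hc
      omega⟩
  · rintro k ⟨A, hk, hA⟩
    by_contra hc
    have h5 : 5 ≤ A.card := by omega
    obtain ⟨B, hBA, hB⟩ := Finset.exists_subset_card_eq h5
    let f : Fin 5 → ZMod 73 := fun i => (B.equivFinOfCardEq hB).symm i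
    refine no_family f (famIndep_of_set hA f ?_ ?_)
    · intro i j h
      exact (B.equivFinOfCardEq hB).symm.injective (Subtype.ext h)
    · intro i
      exact hBA ((B.equivFinOfCardEq hB).symm i).2

/-! ### A five-element set modulo 71 -/

def rng4 : List ℤ := [-4,-3,-2,-1,0,1,2,3,4]

def low : Bool :=
  rng4.all fun a => rng4.all fun b => !(Nat.ble (a.natAbs + b.natAbs) 4) ||
  (rng4.all fun c => !(Nat.ble (a.natAbs + b.natAbs + c.natAbs) 4) ||
  (rng4.all fun d => !(Nat.ble (a.natAbs + b.natAbs + c.natAbs + d.natAbs) 4) ||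
  (rng4.all fun e => !(Nat.ble (a.natAbs + b.natAbs + c.natAbs + d.natAbs + e.natAbs) 4) ||
  (!(Nat.ble 1 (a.natAbs + b.natAbs + c.natAbs + d.natAbs + e.natAbs)) ||
  ((a * 1 + b * 4 + c * 11 + d * 17 + e * 31) % 71 != 0)))))

theorem low_ok : low = true := by decide +kernel

theorem mem_rng4 {x : ℤ} (h : x.natAbs ≤ 4) : x ∈ rng4 := by
  have h1 : -4 ≤ x := by omega
  have h2 : x ≤ 4 := by omega
  interval_cases x <;> decide

theorem low_spec (a b c d e : ℤ) (h4 : |a| + |b| + |c| + |d| + |e| ≤ 4)
    (h1 : 1 ≤ |a| + |b| + |c| + |d| + |e|) :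
    (a * 1 + b * 4 + c * 11 + d * 17 + e * 31) % 71 ≠ 0 := by
  simp only [Int.abs_eq_natAbs] at h4 h1
  have hl := low_ok
  unfold low at hl
  rw [List.all_eq_true] at hl
  have s1 := hl a (mem_rng4 (by omega))
  rw [List.all_eq_true] at s1
  have s2 := s1 b (mem_rng4 (by omega))
  have k2 : Nat.ble (a.natAbs + b.natAbs) 4 = true := Nat.ble_eq.mpr (by omega)
  rw [k2, Bool.not_true, Bool.false_or, List.all_eq_true] at s2
  have s3 := s2 c (mem_rng4 (by omega))
  have k3 : Nat.ble (a.natAbs + b.natAbs + c.natAbs) 4 = true := Nat.ble_eq.mpr (by omega)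
  rw [k3, Bool.not_true, Bool.false_or, List.all_eq_true] at s3
  have s4 := s3 d (mem_rng4 (by omega))
  have k4 : Nat.ble (a.natAbs + b.natAbs + c.natAbs + d.natAbs) 4 = true :=
    Nat.ble_eq.mpr (by omega)
  rw [k4, Bool.not_true, Bool.false_or, List.all_eq_true] at s4
  have s5 := s4 e (mem_rng4 (by omega))
  have k5 : Nat.ble (a.natAbs + b.natAbs + c.natAbs + d.natAbs + e.natAbs) 4 = true :=
    Nat.ble_eq.mpr (by omega)
  have k6 : Nat.ble 1 (a.natAbs + b.natAbs + c.natAbs + d.natAbs + e.natAbs) = true :=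
    Nat.ble_eq.mpr (by omega)
  rw [k5, k6, Bool.not_true, Bool.false_or, Bool.false_or] at s5
  simpa using s5

theorem tau_71 : 5 ≤ tau 71 4 := by
  apply le_csSup
  · refine ⟨71, ?_⟩
    rintro k ⟨A, rfl, _⟩
    have := Finset.card_le_univ A
    simpa [ZMod.card] using this
  · refine ⟨({1, 4, 11, 17, 31} : Finset (ZMod 71)), by decide, ?_⟩
    rintro ⟨h, h1, h4, c, hc, hz⟩
    rw [Finset.sum_insert (by decide), Finset.sum_insert (by decide), Finset.sum_insert (by decide),
      Finset.sum_insert (by decide), Finset.sum_singleton] at hc hz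
    have key := low_spec (c 1) (c 4) (c 11) (c 17) (c 31) (by omega) (by omega)
    apply key
    apply Int.emod_eq_zero_of_dvd
    have h71 := (ZMod.intCast_zmod_eq_zero_iff_dvd
      (c 1 * 1 + c 4 * 4 + c 11 * 11 + c 17 * 17 + c 31 * 31) 71).mp (by
        have hz' := hz.symm
        simp only [zsmul_eq_mul] at hz'
        push_cast
        rw [← hz']
        ring)
    exact_mod_cast h71

theorem tau_one : tau 1 4 = 0 := by
  apply le_antisymm _ (Nat.zero_le _)
  apply csSup_le
  · exact ⟨0, ∅, rfl, by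
      rintro ⟨h, h1, _, c, hc, _⟩
      simp at hc
      omega⟩
  · rintro k ⟨A, rfl, hA⟩
    by_contra hc
    have hne : A.Nonempty := by
      rw [← Finset.card_pos]; omega
    obtain ⟨x, hx⟩ := hne
    apply hA
    refine ⟨1, le_refl _, by norm_num, fun y => if y = x then 1 else 0, ?_, ?_⟩
    · have : ∀ y : ZMod 1, |(if y = x then (1 : ℤ) else 0)| = if y = x then 1 else 0 := by
        intro y
        split_ifs <;> simp
      simp only [this]
      rw [Finset.sum_ite_eq' A x]
      simp [hx]
    · exact Subsingleton.elim _ _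

/-- For `t = 4` the sequence `n ↦ τ_±(Z_n,[1,t])` over the odd positive integers `n = 2k+1` is
neither nondecreasing nor nonincreasing. -/
theorem result : ¬ (Monotone (fun k : ℕ => tau (2 * k + 1) 4) ∨
    Antitone (fun k : ℕ => tau (2 * k + 1) 4)) := by
  rintro (h | h)
  · have h1 : tau 71 4 ≤ tau 73 4 := h (show (35 : ℕ) ≤ 36 by norm_num)
    have h2 := tau_71
    have h3 := tau_73
    omega
  · have h1 : tau 71 4 ≤ tau 1 4 := h (show (0 : ℕ) ≤ 35 by norm_num)
    have h2 := tau_71
    have h3 := tau_one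
    omega

end Pool.Agent.Results.MP_3bc6ef_co.NotMonotoneFour
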